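import Mathlib

/-!
# MP_668c10_co, Q1: the patterns `1243` and `3412` with adjacent first two letters

`{1243^}` and `{3412^}` are des-Wilf equivalent for all `n`.
-/

set_option autoImplicit false
set_option linter.unusedTactic false
set_option linter.unreachableTactic false

open Finset Equiv

namespace Pool.Agent.Results.MP_668c10_co.DesWilf

/-- The number of descents of a permutation `σ` of `n` letters: the number of pairs of adjacent
positions `(i, i + 1)` with `σ i > σ (i + 1)`. -/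
def des {n : ℕ} (σ : Perm (Fin n)) : ℕ :=
  ((univ : Finset (Fin n × Fin n)).filter
    fun p => (p.1 : ℕ) + 1 = (p.2 : ℕ) ∧ σ p.2 < σ p.1).card

/-- `σ` contains the pattern `p̂`: there are positions `i 0 < i 1 < i 2 < i 3`, with
`i 1 = i 0 + 1`, at which the letters of `σ` are order-isomorphic to `p 0, p 1, p 2, p 3`. -/
def Contains {n : ℕ} (p : Fin 4 → ℕ) (σ : Perm (Fin n)) : Prop :=
  ∃ i : Fin 4 → Fin n, StrictMono i ∧ (i 1 : ℕ) = (i 0 : ℕ) + 1 ∧
    ∀ s t : Fin 4, σ (i s) < σ (i t) ↔ p s < p t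

/-! ### Insertion of a first letter -/

section ins

variable {n : ℕ}

/-- put the letter `a` in front. -/
def ins (a : Fin (n + 1)) (σ : Perm (Fin n)) : Perm (Fin (n + 1)) :=
  ((finSuccEquiv' 0).trans (Equiv.optionCongr σ)).trans (finSuccEquiv' a).symm

@[simp] theorem ins_zero (a : Fin (n + 1)) (σ : Perm (Fin n)) : ins a σ 0 = a := by
  simp [ins]

@[simp] theorem ins_succ (a : Fin (n + 1)) (σ : Perm (Fin n)) (i : Fin n) :
    ins a σ i.succ = a.succAbove (σ i) := by
  have : finSuccEquiv' (0 : Fin (n + 1)) i.succ = some i := by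
    rw [← Fin.succAbove_zero_apply, finSuccEquiv'_succAbove]
  simp [ins, this]

theorem ins_bij : Function.Bijective (fun p : Fin (n + 1) × Perm (Fin n) => ins p.1 p.2) := by
  rw [Fintype.bijective_iff_injective_and_card]
  constructor
  · rintro ⟨a, σ⟩ ⟨b, τ⟩ h
    have h0 : a = b := by
      have := congrArg (fun e : Perm (Fin (n + 1)) => e 0) h
      simpa using this
    subst h0
    have : σ = τ := by
      ext i
      have := congrArg (fun e : Perm (Fin (n + 1)) => e i.succ) h
      simp only [ins_succ] at this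
      exact congrArg Fin.val (Fin.succAbove_right_injective this)
    rw [this]
  · simp [Fintype.card_perm, Nat.factorial_succ]

theorem sum_ins {R : Type*} [AddCommMonoid R] (F : Perm (Fin (n + 1)) → R) :
    ∑ σ, F σ = ∑ τ : Perm (Fin n), ∑ a : Fin (n + 1), F (ins a τ) := by
  have h := Fintype.sum_bijective _ (ins_bij (n := n)) (fun p => F (ins p.1 p.2)) F
    (fun _ => rfl)
  rw [← h, Fintype.sum_prod_type, Finset.sum_comm]

theorem sA_lt {a : Fin (n + 1)} {i : Fin n} (h : (i : ℕ) < a) :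
    ((a.succAbove i : Fin (n + 1)) : ℕ) = i := by
  rw [Fin.succAbove_of_castSucc_lt]
  · rfl
  · exact h

theorem sA_ge {a : Fin (n + 1)} {i : Fin n} (h : (a : ℕ) ≤ i) :
    ((a.succAbove i : Fin (n + 1)) : ℕ) = i + 1 := by
  rw [Fin.succAbove_of_le_castSucc]
  · rfl
  · exact h

theorem sA_lt_iff (a : Fin (n + 1)) (i j : Fin n) :
    a.succAbove i < a.succAbove j ↔ i < j := by
  exact Fin.succAbove_lt_succAbove_iff

end ins

/-! ### The statistic `dst`: least letter that has a smaller letter on its left -/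

section dst

variable {n : ℕ}

/-- the least letter with a smaller letter on its left (or `n`). -/
noncomputable def dst (σ : Perm (Fin n)) : ℕ :=
  sInf {v : ℕ | v = n ∨ ∃ i j, i < j ∧ σ i < σ j ∧ ((σ j : Fin n) : ℕ) = v}

theorem le_dst (σ : Perm (Fin n)) (k : ℕ) :
    k ≤ dst σ ↔ k ≤ n ∧ ∀ i j, i < j → σ i < σ j → k ≤ ((σ j : Fin n) : ℕ) := by
  have hne : {v : ℕ | v = n ∨ ∃ i j, i < j ∧ σ i < σ j ∧ ((σ j : Fin n) : ℕ) = v}.Nonempty :=
    ⟨n, Or.inl rfl⟩
  constructor
  · intro h
    refine ⟨h.trans (Nat.sInf_le (Or.inl rfl)), fun i j hij hs => h.trans (Nat.sInf_le ?_)⟩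
    exact Or.inr ⟨i, j, hij, hs, rfl⟩
  · rintro ⟨h1, h2⟩
    rcases Nat.sInf_mem hne with h | ⟨i, j, hij, hs, hv⟩
    · rw [dst, h]; exact h1
    · rw [dst, ← hv]; exact h2 i j hij hs

theorem dst_le (σ : Perm (Fin n)) : dst σ ≤ n := ((le_dst σ _).1 le_rfl).1

theorem dst_spec (σ : Perm (Fin n)) (h : dst σ < n) :
    ∃ i j, i < j ∧ σ i < σ j ∧ ((σ j : Fin n) : ℕ) = dst σ := by
  have hne : {v : ℕ | v = n ∨ ∃ i j, i < j ∧ σ i < σ j ∧ ((σ j : Fin n) : ℕ) = v}.Nonempty :=
    ⟨n, Or.inl rfl⟩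
  rcases Nat.sInf_mem hne with h' | h'
  · exact absurd h' (by rw [dst] at h; omega)
  · exact h'

theorem dst_ins (a : Fin (n + 1)) (σ : Perm (Fin n)) :
    dst (ins a σ) = if (a : ℕ) ≤ dst σ then (a : ℕ) + 1 else dst σ := by
  refine eq_of_forall_le_iff fun k => ?_
  have ha := a.isLt
  have hd := (le_dst σ (dst σ)).1 le_rfl
  have key : k ≤ dst (ins a σ) ↔ k ≤ n + 1 ∧
      (∀ j, (a : ℕ) < (a.succAbove (σ j) : Fin (n + 1)) →
        k ≤ ((a.succAbove (σ j) : Fin (n + 1)) : ℕ)) ∧
      (∀ i j, i < j → σ i < σ j → k ≤ ((a.succAbove (σ j) : Fin (n + 1)) : ℕ)) := by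
    rw [le_dst]
    constructor
    · rintro ⟨h1, h2⟩
      refine ⟨h1, fun j hj => ?_, fun i j hij hs => ?_⟩
      · have := h2 0 j.succ (Fin.succ_pos j) (by simpa using hj)
        simpa using this
      · have := h2 i.succ j.succ (by simpa using hij) (by simpa using hs)
        simpa using this
    · rintro ⟨h1, h2, h3⟩
      refine ⟨h1, fun i j hij hs => ?_⟩
      induction j using Fin.cases with
      | zero => exact absurd hij (by simp)
      | succ j =>
        rw [ins_succ]
        induction i using Fin.cases with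
        | zero => exact h2 j (by simpa using hs)
        | succ i => exact h3 i j (by simpa using hij) (by simpa using hs)
  rw [key]
  split_ifs with hc
  · constructor
    · rintro ⟨h1, h2, -⟩
      by_cases hn : (a : ℕ) < n
      · have h := h2 (σ.symm ⟨a, hn⟩)
        rw [Equiv.apply_symm_apply, sA_ge (by simp)] at h
        exact h (by simp)
      · omega
    · intro hk
      refine ⟨by omega, fun j hj => by omega, fun i j hij hs => ?_⟩
      have h1 := hd.2 i j hij hs
      rw [sA_ge (by omega)]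
      omega
  · push Not at hc
    constructor
    · rintro ⟨-, -, h3⟩
      obtain ⟨i, j, hij, hs, hv⟩ := dst_spec σ (by omega)
      have := h3 i j hij hs
      rw [sA_lt (by omega)] at this
      omega
    · intro hk
      refine ⟨by omega, fun j hj => by omega, fun i j hij hs => ?_⟩
      have h1 := hd.2 i j hij hs
      by_cases h2 : ((σ j : Fin n) : ℕ) < a
      · rw [sA_lt h2]; omega
      · rw [sA_ge (by omega)]; omega

theorem exists_ins (σ : Perm (Fin (n + 1))) : ∃ a τ, ins a τ = σ := by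
  obtain ⟨⟨a, τ⟩, h⟩ := (ins_bij (n := n)).2 σ
  exact ⟨a, τ, h⟩

theorem reach (σ : Perm (Fin (n + 1))) :
    ((σ 0 : Fin (n + 1)) : ℕ) + 1 = dst σ ∨ dst σ + 1 ≤ ((σ 0 : Fin (n + 1)) : ℕ) := by
  obtain ⟨a, τ, rfl⟩ := exists_ins σ
  rw [dst_ins, ins_zero]
  split_ifs with h <;> omega

theorem one_le_dst (σ : Perm (Fin (n + 1))) : 1 ≤ dst σ := by
  rw [le_dst]
  refine ⟨by omega, fun i j _ hs => ?_⟩
  have : (σ i : ℕ) < σ j := hs
  omega

end dst

/-! ### Recursion for the pattern classes and for the statistics -/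

section rec

variable {n : ℕ}

/-- avoids `3412^`. -/
def Av1 (σ : Perm (Fin n)) : Prop :=
  ∀ i j k l : Fin n, (i : ℕ) + 1 = j → j < k → k < l → σ k < σ l → σ l < σ i → ¬ σ i < σ j

/-- avoids `4312^`. -/
def Av2 (σ : Perm (Fin n)) : Prop :=
  ∀ i j k l : Fin n, (i : ℕ) + 1 = j → j < k → k < l → σ k < σ l → σ l < σ j → ¬ σ j < σ i

/-- pairs of adjacent positions with an ascent. -/
def asc (σ : Perm (Fin n)) : ℕ :=
  ((univ : Finset (Fin n × Fin n)).filter
    fun p => (p.1 : ℕ) + 1 = (p.2 : ℕ) ∧ σ p.1 < σ p.2).card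

theorem contains_3412 (σ : Perm (Fin n)) : ¬ Contains ![3, 4, 1, 2] σ ↔ Av1 σ := by
  constructor
  · intro h i j k l hij hjk hkl h1 h2 h3
    refine h ⟨![i, j, k, l], ?_, by simp [← hij], ?_⟩
    · rw [Fin.strictMono_iff_lt_succ]
      intro s
      have h4 : i < j := by rw [Fin.lt_def]; omega
      fin_cases s <;> simp [h4, hjk, hkl]
    · rw [Fin.lt_def] at h1 h2 h3
      intro s t
      rw [Fin.lt_def]
      fin_cases s <;> fin_cases t <;> simp <;> omega
  · rintro h ⟨i, hi, h01, hp⟩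
    refine h (i 0) (i 1) (i 2) (i 3) h01.symm (hi (by decide)) (hi (by decide))
      ((hp 2 3).2 (by simp)) ((hp 3 0).2 (by simp)) ((hp 0 1).2 (by simp))

theorem contains_1243 (σ : Perm (Fin n)) :
    ¬ Contains ![1, 2, 4, 3] σ ↔ Av2 (σ.trans Fin.revPerm) := by
  constructor
  · intro h i j k l hij hjk hkl h1 h2 h3
    simp only [Equiv.trans_apply, Fin.revPerm_apply, Fin.rev_lt_rev] at h1 h2 h3
    refine h ⟨![i, j, k, l], ?_, by simp [← hij], ?_⟩
    · rw [Fin.strictMono_iff_lt_succ]
      intro s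
      have h4 : i < j := by rw [Fin.lt_def]; omega
      fin_cases s <;> simp [h4, hjk, hkl]
    · rw [Fin.lt_def] at h1 h2 h3
      intro s t
      rw [Fin.lt_def]
      fin_cases s <;> fin_cases t <;> simp <;> omega
  · rintro h ⟨i, hi, h01, hp⟩
    refine h (i 0) (i 1) (i 2) (i 3) h01.symm (hi (by decide)) (hi (by decide)) ?_ ?_ ?_ <;>
      simp only [Equiv.trans_apply, Fin.revPerm_apply, Fin.rev_lt_rev]
    · exact (hp 3 2).2 (by simp)
    · exact (hp 1 3).2 (by simp)
    · exact (hp 0 1).2 (by simp)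

theorem asc_rev (σ : Perm (Fin n)) : asc (σ.trans Fin.revPerm) = des σ := by
  unfold asc des
  congr 1
  ext p
  simp [Fin.rev_lt_rev]

theorem av1_ins (a : Fin (n + 2)) (σ : Perm (Fin (n + 1))) :
    Av1 (ins a σ) ↔ Av1 σ ∧ ((a : ℕ) ≤ (σ 0 : Fin (n + 1)) → (a : ℕ) ≤ dst σ) := by
  constructor
  · intro h
    constructor
    · intro i j k l hij hjk hkl h1 h2 h3
      exact h i.succ j.succ k.succ l.succ (by simp [← hij]) (by simpa using hjk)
        (by simpa using hkl) (by simpa using h1) (by simpa using h2) (by simpa using h3)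
    · intro ha
      rw [le_dst]
      refine ⟨by omega, fun i j hij hs => ?_⟩
      by_contra hlt
      push Not at hlt
      have hi0 : i ≠ 0 := by
        rintro rfl
        have : ((σ 0 : Fin (n + 1)) : ℕ) < σ j := hs
        omega
      have h0i : (0 : Fin (n + 1)) < i := Fin.pos_iff_ne_zero.2 hi0
      refine h 0 (Fin.succ 0) i.succ j.succ (by simp) (Fin.succ_lt_succ_iff.2 h0i)
        (Fin.succ_lt_succ_iff.2 hij)
        (by simpa using hs) ?_ ?_
      · rw [ins_succ, ins_zero, Fin.lt_def, sA_lt hlt]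
        exact hlt
      · rw [ins_succ, ins_zero, Fin.lt_def, sA_ge ha]
        omega
  · rintro ⟨h, hd⟩ i j k l hij hjk hkl h1 h2 h3
    induction j using Fin.cases with
    | zero => simp at hij
    | succ j =>
    induction k using Fin.cases with
    | zero => exact absurd hjk (by simp)
    | succ k =>
    induction l using Fin.cases with
    | zero => exact absurd hkl (by simp)
    | succ l =>
    induction i using Fin.cases with
    | zero =>
      have hj : j = 0 := by
        ext; simpa using hij.symm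
      subst hj
      simp only [ins_succ, ins_zero] at h1 h2 h3
      have hs : σ k < σ l := by simpa using h1
      have hkl' : k < l := by simpa using hkl
      have ha : (a : ℕ) ≤ (σ 0 : Fin (n + 1)) := by
        by_contra hc
        push Not at hc
        rw [Fin.lt_def, sA_lt hc] at h3
        omega
      have := ((le_dst σ a).1 (hd ha)).2 k l hkl' hs
      rw [Fin.lt_def, sA_ge this] at h2
      omega
    | succ i =>
      exact h i j k l (by simpa using hij) (by simpa using hjk) (by simpa using hkl)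
        (by simpa using h1) (by simpa using h2) (by simpa using h3)

theorem av2_ins (a : Fin (n + 2)) (σ : Perm (Fin (n + 1))) :
    Av2 (ins a σ) ↔ Av2 σ ∧
      (((σ 0 : Fin (n + 1)) : ℕ) < a → ((σ 0 : Fin (n + 1)) : ℕ) ≤ dst σ) := by
  constructor
  · intro h
    constructor
    · intro i j k l hij hjk hkl h1 h2 h3
      exact h i.succ j.succ k.succ l.succ (by simp [← hij]) (by simpa using hjk)
        (by simpa using hkl) (by simpa using h1) (by simpa using h2) (by simpa using h3)
    · intro ha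
      rw [le_dst]
      refine ⟨by omega, fun i j hij hs => ?_⟩
      by_contra hlt
      push Not at hlt
      have hi0 : i ≠ 0 := by
        rintro rfl
        have : ((σ 0 : Fin (n + 1)) : ℕ) < σ j := hs
        omega
      have h0i : (0 : Fin (n + 1)) < i := Fin.pos_iff_ne_zero.2 hi0
      refine h 0 (Fin.succ 0) i.succ j.succ (by simp) (Fin.succ_lt_succ_iff.2 h0i)
        (Fin.succ_lt_succ_iff.2 hij)
        (by simpa using hs) ?_ ?_
      · rw [ins_succ, ins_succ, sA_lt_iff, Fin.lt_def]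
        exact hlt
      · rw [ins_succ, ins_zero, Fin.lt_def, sA_lt ha]
        exact ha
  · rintro ⟨h, hd⟩ i j k l hij hjk hkl h1 h2 h3
    induction j using Fin.cases with
    | zero => simp at hij
    | succ j =>
    induction k using Fin.cases with
    | zero => exact absurd hjk (by simp)
    | succ k =>
    induction l using Fin.cases with
    | zero => exact absurd hkl (by simp)
    | succ l =>
    induction i using Fin.cases with
    | zero =>
      have hj : j = 0 := by
        ext; simpa using hij.symm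
      subst hj
      simp only [ins_succ, ins_zero] at h1 h2 h3
      have hs : σ k < σ l := by simpa using h1
      have hkl' : k < l := by simpa using hkl
      have ha : ((σ 0 : Fin (n + 1)) : ℕ) < a := by
        by_contra hc
        push Not at hc
        rw [Fin.lt_def, sA_ge hc] at h3
        omega
      have := ((le_dst σ _).1 (hd ha)).2 k l hkl' hs
      have h2' : σ l < σ 0 := by simpa using h2
      rw [Fin.lt_def] at h2'
      omega
    | succ i =>
      exact h i j k l (by simpa using hij) (by simpa using hjk) (by simpa using hkl)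
        (by simpa using h1) (by simpa using h2) (by simpa using h3)

theorem des_ins (a : Fin (n + 2)) (σ : Perm (Fin (n + 1))) :
    des (ins a σ) = des σ + if ((σ 0 : Fin (n + 1)) : ℕ) < a then 1 else 0 := by
  unfold des
  rw [Finset.card_filter, Finset.card_filter, Fintype.sum_prod_type, Fintype.sum_prod_type,
    Fin.sum_univ_succ, add_comm]
  congr 1
  · refine Finset.sum_congr rfl fun i _ => ?_
    rw [Fin.sum_univ_succ]
    simp
  · rw [Fin.sum_univ_succ, Fin.sum_univ_succ]
    have h0 : ∀ x : Fin n, ¬ (((0 : Fin (n + 2)) : ℕ) + 1 = ((x.succ.succ : Fin (n + 2)) : ℕ) ∧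
        ins a σ x.succ.succ < ins a σ 0) := by
      rintro x ⟨h, -⟩
      simp at h
    simp only [h0, if_false, Finset.sum_const_zero, add_zero]
    have h1 : ((((0 : Fin (n + 2)) : ℕ) + 1 = ((0 : Fin (n + 2)) : ℕ)) ∧
      ins a σ 0 < ins a σ 0) ↔ False := by simp
    have h2 : ((((0 : Fin (n + 2)) : ℕ) + 1 = ((Fin.succ 0 : Fin (n + 2)) : ℕ)) ∧
      ins a σ (Fin.succ 0) < ins a σ 0) ↔ ((σ 0 : Fin (n + 1)) : ℕ) < a := by
      rw [ins_succ, ins_zero, Fin.lt_def]
      constructor
      · rintro ⟨-, h⟩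
        by_contra hc
        push Not at hc
        rw [sA_ge hc] at h
        omega
      · intro h
        rw [sA_lt h]
        exact ⟨by simp, h⟩
    simp only [h1, h2, if_false, zero_add]

theorem asc_ins (a : Fin (n + 2)) (σ : Perm (Fin (n + 1))) :
    asc (ins a σ) = asc σ + if ((σ 0 : Fin (n + 1)) : ℕ) < a then 0 else 1 := by
  unfold asc
  rw [Finset.card_filter, Finset.card_filter, Fintype.sum_prod_type, Fintype.sum_prod_type,
    Fin.sum_univ_succ, add_comm]
  congr 1
  · refine Finset.sum_congr rfl fun i _ => ?_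
    rw [Fin.sum_univ_succ]
    simp
  · rw [Fin.sum_univ_succ, Fin.sum_univ_succ]
    have h0 : ∀ x : Fin n, ¬ (((0 : Fin (n + 2)) : ℕ) + 1 = ((x.succ.succ : Fin (n + 2)) : ℕ) ∧
        ins a σ 0 < ins a σ x.succ.succ) := by
      rintro x ⟨h, -⟩
      simp at h
    simp only [h0, if_false, Finset.sum_const_zero, add_zero]
    have h1 : ((((0 : Fin (n + 2)) : ℕ) + 1 = ((0 : Fin (n + 2)) : ℕ)) ∧
      ins a σ 0 < ins a σ 0) ↔ False := by simp
    have h2 : ((((0 : Fin (n + 2)) : ℕ) + 1 = ((Fin.succ 0 : Fin (n + 2)) : ℕ)) ∧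
      ins a σ 0 < ins a σ (Fin.succ 0)) ↔ ¬ ((σ 0 : Fin (n + 1)) : ℕ) < a := by
      rw [ins_succ, ins_zero, Fin.lt_def]
      constructor
      · rintro ⟨-, h⟩ hc
        rw [sA_lt hc] at h
        omega
      · intro h
        rw [sA_ge (by omega)]
        exact ⟨by simp, by omega⟩
    simp only [h1, h2, if_false, zero_add]
    split_ifs <;> rfl

end rec


/-! ### Weighted sums over the two classes -/

section S

variable {R : Type*} [CommRing R] (q : R)

open Classical in
/-- the weighted sum over a class of permutations. -/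
noncomputable def S (n : ℕ) (P : Perm (Fin (n + 1)) → Prop) (w : Perm (Fin (n + 1)) → ℕ)
    (φ : ℕ → ℕ → R) : R :=
  ∑ σ : Perm (Fin (n + 1)),
    if P σ then q ^ w σ * φ ((σ 0 : Fin (n + 1)) : ℕ) (dst σ) else 0

theorem S_congr {n : ℕ} (P : Perm (Fin (n + 1)) → Prop) (w : Perm (Fin (n + 1)) → ℕ)
    {φ ψ : ℕ → ℕ → R}
    (h : ∀ f d, (f + 1 = d ∨ d + 1 ≤ f) → 1 ≤ d → d ≤ n + 1 → f ≤ n → φ f d = ψ f d) :
    S q n P w φ = S q n P w ψ := by
  unfold S
  refine Finset.sum_congr rfl fun σ _ => ?_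
  rw [h _ _ (reach σ) (one_le_dst σ) (dst_le σ) (by omega)]

theorem S_add {n : ℕ} (P : Perm (Fin (n + 1)) → Prop) (w : Perm (Fin (n + 1)) → ℕ)
    (φ ψ : ℕ → ℕ → R) :
    S q n P w (fun f d => φ f d + ψ f d) = S q n P w φ + S q n P w ψ := by
  unfold S
  rw [← Finset.sum_add_distrib]
  refine Finset.sum_congr rfl fun σ _ => ?_
  split_ifs <;> ring

theorem S_smul {n : ℕ} (P : Perm (Fin (n + 1)) → Prop) (w : Perm (Fin (n + 1)) → ℕ)
    (r : R) (φ : ℕ → ℕ → R) :
    S q n P w (fun f d => r * φ f d) = r * S q n P w φ := by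
  unfold S
  rw [Finset.mul_sum]
  refine Finset.sum_congr rfl fun σ _ => ?_
  split_ifs <;> ring

theorem S_sum {n : ℕ} (P : Perm (Fin (n + 1)) → Prop) (w : Perm (Fin (n + 1)) → ℕ)
    (s : Finset ℕ) (φ : ℕ → ℕ → ℕ → R) :
    S q n P w (fun f d => ∑ k ∈ s, φ k f d) = ∑ k ∈ s, S q n P w (φ k) := by
  unfold S
  rw [Finset.sum_comm]
  refine Finset.sum_congr rfl fun σ _ => ?_
  split_ifs
  · rw [Finset.mul_sum]
  · simp

/-- class 1, weight `q ^ des`. -/
noncomputable def S1 (n : ℕ) (φ : ℕ → ℕ → R) : R := S q n Av1 des φ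

/-- class 2, weight `q ^ asc`. -/
noncomputable def S2 (n : ℕ) (φ : ℕ → ℕ → R) : R := S q n Av2 asc φ

theorem S1_succ (n : ℕ) (φ : ℕ → ℕ → R) :
    S1 q (n + 1) φ = S1 q n (fun f d => ∑ a ∈ range (n + 2),
      if a ≤ f → a ≤ d then (if f < a then q else 1) * φ a (if a ≤ d then a + 1 else d)
      else 0) := by
  classical
  unfold S1 S
  rw [sum_ins]
  refine Finset.sum_congr rfl fun σ _ => ?_
  show _ = if Av1 σ then q ^ des σ * (∑ a ∈ range (n + 2),
      if a ≤ ((σ 0 : Fin (n + 1)) : ℕ) → a ≤ dst σ then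
        (if ((σ 0 : Fin (n + 1)) : ℕ) < a then q else 1) *
          φ a (if a ≤ dst σ then a + 1 else dst σ) else 0) else 0
  rw [Finset.sum_range]
  by_cases h : Av1 σ
  · rw [if_pos h, Finset.mul_sum]
    refine Finset.sum_congr rfl fun a _ => ?_
    rw [des_ins, dst_ins, ins_zero]
    by_cases h2 : (a : ℕ) ≤ ((σ 0 : Fin (n + 1)) : ℕ) → (a : ℕ) ≤ dst σ
    · rw [if_pos ((av1_ins a σ).2 ⟨h, h2⟩), if_pos h2]
      by_cases h3 : ((σ 0 : Fin (n + 1)) : ℕ) < a
      · rw [if_pos h3, if_pos h3, pow_succ]; ring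
      · rw [if_neg h3, if_neg h3]; ring
    · rw [if_neg (fun h4 => h2 ((av1_ins a σ).1 h4).2), if_neg h2, mul_zero]
  · rw [if_neg h]
    refine Finset.sum_eq_zero fun a _ => ?_
    rw [if_neg (fun h4 => h ((av1_ins a σ).1 h4).1)]

theorem S2_succ (n : ℕ) (φ : ℕ → ℕ → R) :
    S2 q (n + 1) φ = S2 q n (fun f d => ∑ a ∈ range (n + 2),
      if f < a → f ≤ d then (if f < a then 1 else q) * φ a (if a ≤ d then a + 1 else d)
      else 0) := by
  classical
  unfold S2 S
  rw [sum_ins]
  refine Finset.sum_congr rfl fun σ _ => ?_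
  show _ = if Av2 σ then q ^ asc σ * (∑ a ∈ range (n + 2),
      if ((σ 0 : Fin (n + 1)) : ℕ) < a → ((σ 0 : Fin (n + 1)) : ℕ) ≤ dst σ then
        (if ((σ 0 : Fin (n + 1)) : ℕ) < a then 1 else q) *
          φ a (if a ≤ dst σ then a + 1 else dst σ) else 0) else 0
  rw [Finset.sum_range]
  by_cases h : Av2 σ
  · rw [if_pos h, Finset.mul_sum]
    refine Finset.sum_congr rfl fun a _ => ?_
    rw [asc_ins, dst_ins, ins_zero]
    by_cases h2 : ((σ 0 : Fin (n + 1)) : ℕ) < (a : ℕ) → ((σ 0 : Fin (n + 1)) : ℕ) ≤ dst σ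
    · rw [if_pos ((av2_ins a σ).2 ⟨h, h2⟩), if_pos h2]
      by_cases h3 : ((σ 0 : Fin (n + 1)) : ℕ) < a
      · rw [if_pos h3, if_pos h3]; ring
      · rw [if_neg h3, if_neg h3, pow_succ]; ring
    · rw [if_neg (fun h4 => h2 ((av2_ins a σ).1 h4).2), if_neg h2, mul_zero]
  · rw [if_neg h]
    refine Finset.sum_eq_zero fun a _ => ?_
    rw [if_neg (fun h4 => h ((av2_ins a σ).1 h4).1)]

/-- indicator of the states of the first kind. -/
def iA (m : ℕ) : ℕ → ℕ → R := fun f d => if f + 1 = m ∧ d = m then 1 else 0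

/-- indicator of a state. -/
def iB (f₀ m : ℕ) : ℕ → ℕ → R := fun f d => if f = f₀ ∧ d = m then 1 else 0

/-- indicator of `a ≤ d`. -/
def iG (a : ℕ) : ℕ → ℕ → R := fun _ d => if a ≤ d then 1 else 0

theorem sum_single (n a : ℕ) (F : ℕ → R) (h : ∀ b, b ≠ a → F b = 0) :
    ∑ b ∈ range n, F b = if a < n then F a else 0 := by
  split_ifs with ha
  · exact Finset.sum_eq_single a (fun b _ hb => h b hb) (fun h' => absurd (mem_range.2 ha) h')
  · refine Finset.sum_eq_zero fun b hb => h b ?_
    rintro rfl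
    exact ha (mem_range.1 hb)

theorem S1_iA (n a : ℕ) :
    S1 q (n + 1) (iA (a + 1)) = S1 q n (iG a) + (q - 1) * S1 q n (iA a) := by
  rw [S1_succ]
  unfold S1
  rw [← S_smul, ← S_add]
  refine S_congr q _ _ fun f d hr h1 h2 h3 => ?_
  rw [sum_single _ a]
  · unfold iA iG
    by_cases had : a ≤ d
    · simp only [if_pos had]
      split_ifs <;> first | (exfalso; omega) | ring1 | (simp_all; done) | (simp_all; ring1)
    · simp only [if_neg had]
      split_ifs <;> first | (exfalso; omega) | ring1 | (simp_all; done) | (simp_all; ring1)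
  · intro b hb
    unfold iA
    rw [if_neg (by rintro ⟨h, -⟩; omega : ¬ (b + 1 = a + 1 ∧ _))]
    simp

theorem S2_iA (n a : ℕ) :
    S2 q (n + 1) (iA (a + 1)) = q * S2 q n (iG a) + (1 - q) * S2 q n (iA a) := by
  rw [S2_succ]
  unfold S2
  rw [← S_smul, ← S_smul, ← S_add]
  refine S_congr q _ _ fun f d hr h1 h2 h3 => ?_
  rw [sum_single _ a]
  · unfold iA iG
    by_cases had : a ≤ d
    · simp only [if_pos had]
      split_ifs <;> first | (exfalso; omega) | ring1 | (simp_all; done) | (simp_all; ring1)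
    · simp only [if_neg had]
      split_ifs <;> first | (exfalso; omega) | ring1 | (simp_all; done) | (simp_all; ring1)
  · intro b hb
    unfold iA
    rw [if_neg (by rintro ⟨h, -⟩; omega : ¬ (b + 1 = a + 1 ∧ _))]
    simp

theorem sum_iB (s : Finset ℕ) (m f d : ℕ) :
    ∑ k ∈ s, iB (R := R) k m f d = if f ∈ s ∧ d = m then 1 else 0 := by
  classical
  unfold iB
  by_cases hd : d = m
  · simp [hd]
  · simp [hd]

theorem S1_iB (n f' m : ℕ) (hm : m + 1 ≤ f') (hn : f' ≤ n + 1) :
    S1 q (n + 1) (iB f' m) =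
      q * (S1 q n (iA m) + ∑ k ∈ Ico (m + 1) f', S1 q n (iB k m)) := by
  rw [S1_succ]
  unfold S1
  rw [← S_sum, ← S_add, ← S_smul]
  refine S_congr q _ _ fun f d hr h1 h2 h3 => ?_
  rw [sum_single _ f']
  · rw [sum_iB]
    unfold iA iB
    simp only [mem_Ico]
    by_cases had : f' ≤ d
    · simp only [if_pos had]
      split_ifs <;> first | (exfalso; omega) | ring1 | (simp_all; done) | (simp_all; ring1)
    · simp only [if_neg had]
      split_ifs <;> first | (exfalso; omega) | ring1 | (simp_all; done) | (simp_all; ring1)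
  · intro b hb
    unfold iB
    rw [if_neg (by rintro ⟨h, -⟩; omega : ¬ (b = f' ∧ _))]
    simp

theorem S2_iB (n f' m : ℕ) (hm : m + 1 ≤ f') (hn : f' ≤ n + 1) :
    S2 q (n + 1) (iB f' m) =
      S2 q n (iA m) + q * ∑ k ∈ Ico f' (n + 1), S2 q n (iB k m) := by
  rw [S2_succ]
  unfold S2
  rw [← S_sum, ← S_smul, ← S_add]
  refine S_congr q _ _ fun f d hr h1 h2 h3 => ?_
  rw [sum_single _ f']
  · rw [sum_iB]
    unfold iA iB
    simp only [mem_Ico]
    by_cases had : f' ≤ d
    · simp only [if_pos had]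
      split_ifs <;> first | (exfalso; omega) | ring1 | (simp_all; done) | (simp_all; ring1)
    · simp only [if_neg had]
      split_ifs <;> first | (exfalso; omega) | ring1 | (simp_all; done) | (simp_all; ring1)
  · intro b hb
    unfold iB
    rw [if_neg (by rintro ⟨h, -⟩; omega : ¬ (b = f' ∧ _))]
    simp

theorem S_iG (n : ℕ) (P : Perm (Fin (n + 1)) → Prop) (w : Perm (Fin (n + 1)) → ℕ) (a : ℕ) :
    S q n P w (iG a) = S q n P w (iG (a + 1)) +
      (S q n P w (iA a) + ∑ k ∈ Ico (a + 1) (n + 1), S q n P w (iB k a)) := by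
  rw [← S_sum, ← S_add, ← S_add]
  refine S_congr q _ _ fun f d hr h1 h2 h3 => ?_
  rw [sum_iB]
  unfold iG iA
  simp only [mem_Ico]
  split_ifs <;> first | (exfalso; omega) | ring1 | (simp_all; done) | (simp_all; ring1)

theorem S_iA_zero (n : ℕ) (P : Perm (Fin (n + 1)) → Prop) (w : Perm (Fin (n + 1)) → ℕ) :
    S q n P w (iA 0) = 0 := by
  have : S q n P w (iA 0) = S q n P w (fun f d => 0 * iA 0 f d) :=
    S_congr q _ _ fun f d _ _ _ _ => by simp [iA]
  rw [this, S_smul, zero_mul]

theorem S_iG_zero (n : ℕ) (P : Perm (Fin (n + 1)) → Prop) (w : Perm (Fin (n + 1)) → ℕ) :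
    S q n P w (iG 0) = S q n P w (iG 1) :=
  S_congr q _ _ fun f d _ h _ _ => by simp [iG, h]

theorem S_iG_top (n : ℕ) (P : Perm (Fin (n + 1)) → Prop) (w : Perm (Fin (n + 1)) → ℕ) :
    S q n P w (iG (n + 1)) = S q n P w (iA (n + 1)) :=
  S_congr q _ _ fun f d hr h1 h2 h3 => by
    unfold iG iA
    split_ifs <;> first | rfl | (exfalso; omega)

theorem S_base (P : Perm (Fin (0 + 1)) → Prop) (w : Perm (Fin (0 + 1)) → ℕ)
    (hP : ∀ σ, P σ) (hw : ∀ σ, w σ = 0) : S q 0 P w (iA 1) = 1 := by
  classical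
  have : Subsingleton (Perm (Fin (0 + 1))) := inferInstanceAs (Subsingleton (Perm (Fin 1)))
  unfold S
  rw [Finset.sum_eq_single (1 : Perm (Fin (0 + 1)))
    (fun σ _ h => absurd (Subsingleton.elim σ 1) h) (fun h => absurd (mem_univ _) h),
    if_pos (hP _), hw, pow_zero, one_mul]
  have h1 := reach (1 : Perm (Fin (0 + 1)))
  have h2 := dst_le (1 : Perm (Fin (0 + 1)))
  have h3 := one_le_dst (1 : Perm (Fin (0 + 1)))
  unfold iA
  rw [if_pos (by omega)]

theorem S1_top (n : ℕ) : S1 q n (iA (n + 1)) = q ^ n := by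
  induction n with
  | zero =>
    unfold S1
    rw [S_base, pow_zero]
    · intro σ i j k l hij
      exact absurd hij (by omega)
    · intro σ
      unfold des
      rw [Finset.card_eq_zero, Finset.filter_eq_empty_iff]
      rintro ⟨i, j⟩ - ⟨h, -⟩
      simp only at h
      omega
  | succ n ih =>
    rw [S1_iA]
    have : S1 q n (iG (n + 1)) = S1 q n (iA (n + 1)) := S_iG_top q n _ _
    rw [this, ih, pow_succ]
    ring

theorem S2_top (n : ℕ) : S2 q n (iA (n + 1)) = 1 := by
  induction n with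
  | zero =>
    unfold S2
    rw [S_base]
    · intro σ i j k l hij
      exact absurd hij (by omega)
    · intro σ
      unfold asc
      rw [Finset.card_eq_zero, Finset.filter_eq_empty_iff]
      rintro ⟨i, j⟩ - ⟨h, -⟩
      simp only at h
      omega
  | succ n ih =>
    rw [S2_iA]
    have : S2 q n (iG (n + 1)) = S2 q n (iA (n + 1)) := S_iG_top q n _ _
    rw [this, ih]
    ring

end S

/-! ### The algebra -/

section alg

variable {R : Type*} [CommRing R] (q : R)

noncomputable def x : ℕ → ℕ → R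
  | 0, g => if g = 0 then 1 else 0
  | m + 1, g => q * S1 q (m + g) (iA (m + 1))

noncomputable def y : ℕ → ℕ → ℕ → R
  | 0, _, _ => 0
  | m + 1, g, h => q * S1 q (m + g) (iB (m + 1 + h) (m + 1))

noncomputable def u : ℕ → ℕ → R
  | 0, g => if g = 0 then 1 else 0
  | m + 1, g => S2 q (m + g) (iA (m + 1))

noncomputable def v : ℕ → ℕ → ℕ → R
  | 0, _, _ => 0
  | m + 1, g, h => q * S2 q (m + g) (iB (m + 1 + (g - h)) (m + 1))

theorem y_rec (m g h : ℕ) (h1 : 1 ≤ h) (h2 : h ≤ g) :
    y q m (g + 1) h = q * (x q m g + ∑ k ∈ Ico 1 h, y q m g k) := by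
  cases m with
  | zero =>
    have : g ≠ 0 := by omega
    simp [x, y, this]
  | succ m =>
    show q * S1 q (m + g + 1) (iB (m + 1 + h) (m + 1)) = _
    rw [S1_iB q (m + g) (m + 1 + h) (m + 1) (by omega) (by omega)]
    have h3 : ∑ k ∈ Ico (m + 1 + 1) (m + 1 + h), S1 q (m + g) (iB k (m + 1)) =
        ∑ k ∈ Ico 1 h, S1 q (m + g) (iB (m + 1 + k) (m + 1)) := by
      rw [Finset.sum_Ico_add (fun k => S1 q (m + g) (iB k (m + 1))) 1 h (m + 1),
        add_comm 1 (m + 1), add_comm h (m + 1)]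
    rw [h3]
    show _ = q * (q * S1 q (m + g) (iA (m + 1)) +
      ∑ k ∈ Ico 1 h, q * S1 q (m + g) (iB (m + 1 + k) (m + 1)))
    rw [← Finset.mul_sum]
    ring

theorem v_rec (m g h : ℕ) (h1 : 1 ≤ h) (h2 : h ≤ g) :
    v q m (g + 1) h = q * (u q m g + ∑ k ∈ Ico 1 h, v q m g k) := by
  cases m with
  | zero =>
    have : g ≠ 0 := by omega
    simp [u, v, this]
  | succ m =>
    show q * S2 q (m + g + 1) (iB (m + 1 + (g + 1 - h)) (m + 1)) = _
    rw [S2_iB q (m + g) (m + 1 + (g + 1 - h)) (m + 1) (by omega) (by omega)]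
    have h3 : ∑ k ∈ Ico (m + 1 + (g + 1 - h)) (m + g + 1), S2 q (m + g) (iB k (m + 1)) =
        ∑ k ∈ Ico 1 h, S2 q (m + g) (iB (m + 1 + (g - k)) (m + 1)) := by
      refine Finset.sum_nbij' (fun k => m + 1 + g - k) (fun k => m + 1 + (g - k)) ?_ ?_ ?_ ?_ ?_
      · intro k hk; rw [mem_Ico] at hk ⊢; omega
      · intro k hk; rw [mem_Ico] at hk ⊢; omega
      · intro k hk; rw [mem_Ico] at hk; show m + 1 + (g - (m + 1 + g - k)) = k; omega
      · intro k hk; rw [mem_Ico] at hk; show m + 1 + g - (m + 1 + (g - k)) = k; omega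
      · intro k hk
        rw [mem_Ico] at hk
        show _ = S2 q (m + g) (iB (m + 1 + (g - (m + 1 + g - k))) (m + 1))
        rw [show m + 1 + (g - (m + 1 + g - k)) = k by omega]
    rw [h3]
    show _ = q * (S2 q (m + g) (iA (m + 1)) +
      ∑ k ∈ Ico 1 h, q * S2 q (m + g) (iB (m + 1 + (g - k)) (m + 1)))
    rw [← Finset.mul_sum]

theorem x_top (m : ℕ) : x q m 0 = q ^ m := by
  cases m with
  | zero => simp [x]
  | succ m =>
    show q * S1 q (m + 0) (iA (m + 1)) = _
    rw [add_zero, S1_top, pow_succ']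

theorem u_top (m : ℕ) : u q m 0 = 1 := by
  cases m with
  | zero => simp [u]
  | succ m =>
    show S2 q (m + 0) (iA (m + 1)) = _
    rw [add_zero, S2_top]

theorem S1_iG (n a : ℕ) : S1 q n (iG a) = S1 q n (iG (a + 1)) +
    (S1 q n (iA a) + ∑ k ∈ Ico (a + 1) (n + 1), S1 q n (iB k a)) := S_iG q n _ _ a

theorem S2_iG (n a : ℕ) : S2 q n (iG a) = S2 q n (iG (a + 1)) +
    (S2 q n (iA a) + ∑ k ∈ Ico (a + 1) (n + 1), S2 q n (iB k a)) := S_iG q n _ _ a

theorem S1_iA_zero (n : ℕ) : S1 q n (iA 0) = 0 := S_iA_zero q n _ _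

theorem S2_iA_zero (n : ℕ) : S2 q n (iA 0) = 0 := S_iA_zero q n _ _

theorem x_rec (m g : ℕ) : x q (m + 1) (g + 1) = x q (m + 2) g + x q m (g + 1) +
    ∑ k ∈ Ico 1 (g + 1), y q m (g + 1) k + (q - 1) * (x q m (g + 1) - x q (m + 1) g) := by
  have e1 : x q (m + 1) (g + 1) = q * (S1 q (m + g) (iG m) + (q - 1) * S1 q (m + g) (iA m)) := by
    rw [← S1_iA]; rfl
  have e2 : x q (m + 2) g =
      q * (S1 q (m + g) (iG (m + 1)) + (q - 1) * S1 q (m + g) (iA (m + 1))) := by
    rw [← S1_iA]
    show q * S1 q (m + 1 + g) (iA (m + 2)) = _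
    rw [show m + 1 + g = m + g + 1 by omega]
  have e3 : x q (m + 1) g = q * S1 q (m + g) (iA (m + 1)) := rfl
  rw [e1, e2, e3]
  cases m with
  | zero =>
    have h1 : S1 q (0 + g) (iG 0) = S1 q (0 + g) (iG (0 + 1)) := S_iG_zero q _ _ _
    rw [h1, S1_iA_zero]
    simp only [x, y, Nat.add_eq_zero_iff, one_ne_zero, and_false, if_false,
      Finset.sum_const_zero]
    ring
  | succ m =>
    rw [S1_iG]
    have e4 : x q (m + 1) (g + 1) = q * S1 q (m + 1 + g) (iA (m + 1)) := by
      show q * S1 q (m + (g + 1)) (iA (m + 1)) = _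
      rw [show m + 1 + g = m + (g + 1) by omega]
    have e5 : ∑ k ∈ Ico 1 (g + 1), y q (m + 1) (g + 1) k =
        q * ∑ k ∈ Ico (m + 1 + 1) (m + 1 + g + 1), S1 q (m + 1 + g) (iB k (m + 1)) := by
      rw [Finset.mul_sum]
      have := Finset.sum_Ico_add (fun k => q * S1 q (m + 1 + g) (iB k (m + 1))) 1 (g + 1) (m + 1)
      rw [show m + 1 + 1 = 1 + (m + 1) by omega, show m + 1 + g + 1 = g + 1 + (m + 1) by omega,
        ← this]
      refine Finset.sum_congr rfl fun k _ => ?_
      show q * S1 q (m + (g + 1)) (iB (m + 1 + k) (m + 1)) = _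
      rw [show m + 1 + g = m + (g + 1) by omega]
    rw [e4, e5]
    ring

theorem u_rec (m g : ℕ) : u q (m + 1) (g + 1) = u q (m + 2) g + u q m (g + 1) +
    ∑ k ∈ Ico 1 (g + 1), v q m (g + 1) k + (q - 1) * u q (m + 1) g := by
  have e1 : u q (m + 1) (g + 1) = q * S2 q (m + g) (iG m) + (1 - q) * S2 q (m + g) (iA m) := by
    rw [← S2_iA]; rfl
  have e2 : u q (m + 2) g =
      q * S2 q (m + g) (iG (m + 1)) + (1 - q) * S2 q (m + g) (iA (m + 1)) := by
    rw [← S2_iA]
    show S2 q (m + 1 + g) (iA (m + 2)) = _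
    rw [show m + 1 + g = m + g + 1 by omega]
  have e3 : u q (m + 1) g = S2 q (m + g) (iA (m + 1)) := rfl
  rw [e1, e2, e3]
  cases m with
  | zero =>
    have h1 : S2 q (0 + g) (iG 0) = S2 q (0 + g) (iG (0 + 1)) := S_iG_zero q _ _ _
    rw [h1, S2_iA_zero]
    simp only [u, v, Nat.add_eq_zero_iff, one_ne_zero, and_false, if_false,
      Finset.sum_const_zero]
    ring
  | succ m =>
    rw [S2_iG]
    have e4 : u q (m + 1) (g + 1) = S2 q (m + 1 + g) (iA (m + 1)) := by
      show S2 q (m + (g + 1)) (iA (m + 1)) = _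
      rw [show m + 1 + g = m + (g + 1) by omega]
    have e5 : ∑ k ∈ Ico 1 (g + 1), v q (m + 1) (g + 1) k =
        q * ∑ k ∈ Ico (m + 1 + 1) (m + 1 + g + 1), S2 q (m + 1 + g) (iB k (m + 1)) := by
      rw [Finset.mul_sum]
      refine Finset.sum_nbij' (fun k => m + 1 + (g + 1 - k)) (fun k => m + 2 + g - k)
        ?_ ?_ ?_ ?_ ?_
      · intro k hk; rw [mem_Ico] at hk ⊢; omega
      · intro k hk; rw [mem_Ico] at hk ⊢; omega
      · intro k hk; rw [mem_Ico] at hk; show m + 2 + g - (m + 1 + (g + 1 - k)) = k; omega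
      · intro k hk; rw [mem_Ico] at hk; show m + 1 + (g + 1 - (m + 2 + g - k)) = k; omega
      · intro k hk
        show q * S2 q (m + (g + 1)) (iB (m + 1 + (g + 1 - k)) (m + 1)) = _
        rw [show m + 1 + g = m + (g + 1) by omega]
    rw [e4, e5]
    ring

/-- the binomial transform. -/
def P (p : R) : ℕ → (ℕ → R) → R
  | 0, c => c 0
  | m + 1, c => p * P p m c + P p m (fun k => c (k + 1))

theorem P_add (p : R) (m : ℕ) (c d : ℕ → R) :
    P p m (fun k => c k + d k) = P p m c + P p m d := by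
  induction m generalizing c d with
  | zero => rfl
  | succ m ih =>
    show p * P p m (fun k => c k + d k) + P p m (fun k => c (k + 1) + d (k + 1)) = _
    rw [ih, ih (fun k => c (k + 1)) (fun k => d (k + 1))]
    show _ = (p * P p m c + P p m (fun k => c (k + 1))) +
      (p * P p m d + P p m (fun k => d (k + 1)))
    ring

theorem P_smul (p r : R) (m : ℕ) (c : ℕ → R) :
    P p m (fun k => r * c k) = r * P p m c := by
  induction m generalizing c with
  | zero => rfl
  | succ m ih =>
    show p * P p m (fun k => r * c k) + P p m (fun k => r * c (k + 1)) = _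
    rw [ih, ih (fun k => c (k + 1))]
    show _ = r * (p * P p m c + P p m (fun k => c (k + 1)))
    ring

theorem P_zero (p : R) (m : ℕ) : P p m (fun _ => (0 : R)) = 0 := by
  have := P_smul p 0 m (fun _ => (0 : R))
  simpa using this

theorem P_sum (p : R) (m : ℕ) (s : Finset ℕ) (c : ℕ → ℕ → R) :
    P p m (fun k => ∑ j ∈ s, c j k) = ∑ j ∈ s, P p m (c j) := by
  classical
  induction s using Finset.induction_on with
  | empty => simpa using P_zero p m
  | insert a s ha ih =>
    rw [Finset.sum_insert ha, ← ih, ← P_add]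
    congr 1
    funext k
    rw [Finset.sum_insert ha]

theorem P_one (p : R) (m : ℕ) : P p m (fun _ => (1 : R)) = (p + 1) ^ m := by
  induction m with
  | zero => simp [P]
  | succ m ih =>
    show p * P p m (fun _ => (1 : R)) + P p m (fun _ => (1 : R)) = _
    rw [ih, pow_succ]
    ring

theorem main (g : ℕ) : (∀ m, x q m g = P (q - 1) m (fun k => u q k g)) ∧
    (∀ m h, 1 ≤ h → h < g → y q m g h = P (q - 1) m (fun k => v q k g h)) := by
  induction g with
  | zero =>
    refine ⟨fun m => ?_, fun m h h1 h2 => absurd h2 (by omega)⟩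
    rw [x_top]
    simp only [u_top]
    rw [P_one, sub_add_cancel]
  | succ g ih =>
    obtain ⟨ihx, ihy⟩ := ih
    have hy : ∀ m h, 1 ≤ h → h < g + 1 →
        y q m (g + 1) h = P (q - 1) m (fun k => v q k (g + 1) h) := by
      intro m h h1 h2
      have e1 : (fun k => v q k (g + 1) h) =
          fun k => q * (u q k g + ∑ j ∈ Ico 1 h, v q k g j) := by
        funext k
        exact v_rec q k g h h1 (by omega)
      rw [e1, P_smul, P_add, P_sum, y_rec q m g h h1 (by omega), ihx]
      congr 2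
      refine Finset.sum_congr rfl fun j hj => ?_
      rw [mem_Ico] at hj
      exact ihy m j hj.1 (by omega)
    refine ⟨fun m => ?_, hy⟩
    induction m with
    | zero => simp [x, u, P]
    | succ m ihm =>
      have e1 : (fun k => u q (k + 1) (g + 1)) = fun k => u q (k + 2) g + u q k (g + 1) +
          ∑ j ∈ Ico 1 (g + 1), v q k (g + 1) j + (q - 1) * u q (k + 1) g := by
        funext k
        exact u_rec q k g
      have e2 : P (q - 1) (m + 1) (fun k => u q k (g + 1)) =
          (q - 1) * x q m (g + 1) + (P (q - 1) m (fun k => u q (k + 2) g) + x q m (g + 1) +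
            ∑ j ∈ Ico 1 (g + 1), y q m (g + 1) j +
              (q - 1) * P (q - 1) m (fun k => u q (k + 1) g)) := by
        show (q - 1) * P (q - 1) m (fun k => u q k (g + 1)) +
          P (q - 1) m (fun k => u q (k + 1) (g + 1)) = _
        rw [e1, P_add, P_add, P_add, P_sum, P_smul, ← ihm]
        congr 3
        refine Finset.sum_congr rfl fun j hj => ?_
        rw [mem_Ico] at hj
        exact (hy m j hj.1 hj.2).symm
      have e3 : x q (m + 2) g = (q - 1) * x q (m + 1) g +
          ((q - 1) * P (q - 1) m (fun k => u q (k + 1) g) +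
            P (q - 1) m (fun k => u q (k + 2) g)) := by
        rw [ihx, ihx]
        rfl
      rw [e2, x_rec, e3]
      ring

theorem main_one (g : ℕ) : x q 1 (g + 1) = u q 1 (g + 1) := by
  rw [(main q (g + 1)).1 1]
  show (q - 1) * u q 0 (g + 1) + u q (0 + 1) (g + 1) = _
  simp [u]

theorem final (n : ℕ) :
    q * S1 q n (fun _ _ => 1) = q * S2 q n (fun _ _ => 1) := by
  have h := main_one q n
  have e1 : x q 1 (n + 1) = q * S1 q (n + 1) (iA (0 + 1)) := by
    show q * S1 q (0 + (n + 1)) (iA (0 + 1)) = _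
    rw [zero_add]
  have e2 : u q 1 (n + 1) = S2 q (n + 1) (iA (0 + 1)) := by
    show S2 q (0 + (n + 1)) (iA (0 + 1)) = _
    rw [zero_add]
  rw [e1, e2, S1_iA, S2_iA, S1_iA_zero, S2_iA_zero, mul_zero, mul_zero, add_zero, add_zero] at h
  have e3 : (iG 0 : ℕ → ℕ → R) = fun _ _ => 1 := by
    funext f d
    simp [iG]
  rwa [e3] at h

end alg


open Polynomial

open Classical in
/-- The descent polynomial of the class of permutations of `n` letters avoiding `p̂`: the sum of
`X ^ des σ` over all permutations `σ` of `n` letters that do not contain `p̂`. -/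
noncomputable def F (n : ℕ) (p : Fin 4 → ℕ) : ℤ[X] :=
  ∑ σ ∈ (univ : Finset (Perm (Fin n))).filter (fun σ => ¬ Contains p σ), X ^ des σ

theorem F_3412 (n : ℕ) : F (n + 1) ![3, 4, 1, 2] = S1 (X : ℤ[X]) n (fun _ _ => 1) := by
  classical
  unfold F S1 S
  rw [Finset.sum_filter]
  refine Finset.sum_congr rfl fun σ _ => ?_
  by_cases h : Av1 σ
  · rw [if_pos h, if_pos ((contains_3412 σ).2 h), mul_one]
  · rw [if_neg h, if_neg (fun h' => h ((contains_3412 σ).1 h'))]

theorem F_1243 (n : ℕ) : F (n + 1) ![1, 2, 4, 3] = S2 (X : ℤ[X]) n (fun _ _ => 1) := by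
  classical
  unfold F S2 S
  rw [Finset.sum_filter]
  have hinv : Function.Involutive (fun σ : Perm (Fin (n + 1)) => σ.trans Fin.revPerm) := by
    intro σ
    ext i
    simp
  refine Fintype.sum_bijective _ hinv.bijective _ _ fun σ => ?_
  by_cases h : Av2 (σ.trans Fin.revPerm)
  · rw [if_pos h, if_pos ((contains_1243 σ).2 h), mul_one, asc_rev]
  · rw [if_neg h, if_neg (fun h' => h ((contains_1243 σ).1 h'))]

/-- **Q1, positive answer.**  `{1243^}` and `{3412^}` are des-Wilf equivalent. -/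
theorem result (n : ℕ) : F n ![1, 2, 4, 3] = F n ![3, 4, 1, 2] := by
  classical
  cases n with
  | zero =>
    have h : ∀ p : Fin 4 → ℕ, F 0 p = ∑ σ : Perm (Fin 0), X ^ des σ := by
      intro p
      unfold F
      rw [Finset.filter_true_of_mem]
      rintro σ - ⟨i, -⟩
      exact (i 0).elim0
    rw [h, h]
  | succ n =>
    rw [F_1243, F_3412]
    exact (mul_left_cancel₀ (X_ne_zero (R := ℤ)) (final (X : ℤ[X]) n)).symm

end Pool.Agent.Results.MP_668c10_co.DesWilf
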